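import Pool.Agent.W653.SC.Defs

/-!
# Continuous unitary representations are smooth (Garding's trick)
-/

set_option autoImplicit false

open MeasureTheory Matrix Topology Set
open scoped Matrix.Norms.Frobenius ContDiff

namespace Pool.Agent.W557.SC.Gard

open Pool.Agent.H906R3.YM Pool.Agent.W653.SC

noncomputable section

/-- Garding's trick in a Banach algebra -/
theorem core {G : Type} [Group G] [TopologicalSpace G] [IsTopologicalGroup G] [CompactSpace G]
    [SecondCountableTopology G] [MeasurableSpace G] [BorelSpace G] (μ : Measure G)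
    [IsProbabilityMeasure μ] [μ.IsMulLeftInvariant] [μ.IsOpenPosMeasure] {B : Type}
    [NormedRing B] [NormedAlgebra ℝ B] [CompleteSpace B] (r : G →* B) (hr : Continuous r)
    (w : G → ℝ) (hw : Continuous w) (hw0 : ∀ h, 0 ≤ w h) (hw1 : w 1 ≠ 0)
    (hws : ∀ h, w h ≠ 0 → ‖r h - 1‖ < 1 / 2) :
    ∃ S : B, ∀ g, r g = (∫ h, w (g⁻¹ * h) • r h ∂μ) * S := by
  have hwi : Integrable w μ := hw.integrable_of_hasCompactSupport (HasCompactSupport.of_compactSpace _)
  set a : ℝ := ∫ h, w h ∂μ with ha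
  have ha0 : 0 < a := hw.integral_pos_of_hasCompactSupport_nonneg_nonzero
      (HasCompactSupport.of_compactSpace _) hw0 (x := 1) hw1
  have hTc : Continuous fun h : G => w h • r h := hw.smul hr
  have hTi : Integrable (fun h : G => w h • r h) μ :=
    hTc.integrable_of_hasCompactSupport (HasCompactSupport.of_compactSpace _)
  set T : B := ∫ h, w h • r h ∂μ with hT
  -- `T` is close to `a`
  have hTa : ‖a • (1 : B) - T‖ ≤ a * (1 / 2) := by
    have h1 : a • (1 : B) - T = ∫ h, w h • (1 - r h) ∂μ := by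
      have e1 : a • (1 : B) = ∫ h, w h • (1 : B) ∂μ := by
        rw [integral_smul_const]
      rw [e1, hT, ← integral_sub (hwi.smul_const _) hTi]
      congr 1
      funext h
      rw [smul_sub]
    rw [h1, ha, ← integral_mul_const]
    refine norm_integral_le_of_norm_le (hwi.mul_const _) (Filter.Eventually.of_forall fun h => ?_)
    rw [norm_smul, Real.norm_of_nonneg (hw0 h)]
    by_cases hh : w h = 0
    · rw [hh]; simp
    · have h2 := hws h hh
      rw [norm_sub_rev] at h2
      exact mul_le_mul_of_nonneg_left h2.le (hw0 h)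
  have hsmall : ‖(1 : B) - a⁻¹ • T‖ < 1 := by
    have h1 : (1 : B) - a⁻¹ • T = a⁻¹ • (a • (1 : B) - T) := by
      rw [smul_sub, smul_smul, inv_mul_cancel₀ ha0.ne', one_smul]
    rw [h1, norm_smul, Real.norm_of_nonneg (inv_nonneg.mpr ha0.le)]
    calc a⁻¹ * ‖a • (1 : B) - T‖ ≤ a⁻¹ * (a * (1 / 2)) :=
          mul_le_mul_of_nonneg_left hTa (inv_nonneg.mpr ha0.le)
      _ = 1 / 2 := by field_simp
      _ < 1 := by norm_num
  let u : Bˣ := Units.oneSub _ hsmall
  have hu : (u : B) = a⁻¹ • T := by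
    show (1 : B) - (1 - a⁻¹ • T) = _
    abel
  let S : B := a⁻¹ • (↑u⁻¹ : B)
  have hTS : T * S = 1 := by
    show T * (a⁻¹ • (↑u⁻¹ : B)) = 1
    rw [mul_smul_comm, ← smul_mul_assoc, ← hu, Units.mul_inv]
  refine ⟨S, fun g => ?_⟩
  have key : ∫ h, w (g⁻¹ * h) • r h ∂μ = r g * T := by
    rw [← integral_mul_left_eq_self (μ := μ) (fun h : G => w (g⁻¹ * h) • r h) g]
    have h2 : ∀ h : G, w (g⁻¹ * (g * h)) • r (g * h) =
        ContinuousLinearMap.mul ℝ B (r g) (w h • r h) := by
      intro h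
      show w (g⁻¹ * (g * h)) • r (g * h) = r g * (w h • r h)
      rw [inv_mul_cancel_left, map_mul, mul_smul_comm]
    rw [integral_congr_ae (Filter.Eventually.of_forall h2),
      ContinuousLinearMap.integral_comp_comm _ hTi]
    rfl
  rw [key, mul_assoc, hTS, mul_one]

/-- conjugate transposition as a continuous linear map -/
def ct (N : ℕ) : Mat N →L[ℝ] Mat N :=
  LinearMap.toContinuousLinearMap
    { toFun := fun A : Mat N => Aᴴ
      map_add' := fun A B => Matrix.conjTranspose_add A B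
      map_smul' := fun c A => by
        ext i j
        simp [Matrix.conjTranspose_apply, Matrix.smul_apply] }

theorem ct_apply {N : ℕ} (A : Mat N) : ct N A = Aᴴ := rfl

theorem main (hpar : StmtPar) : StmtGard := by
  intro G _ _ _ _ _ _ _ _ μ _ _ _ N M rho r hrho hinj hunit hr
  have : CompleteSpace (Mat M) := FiniteDimensional.complete ℝ _
  have hemb : IsClosedEmbedding rho := hrho.isClosedEmbedding hinj
  have hU : {h : G | ‖r h - 1‖ < 1 / 2} ∈ 𝓝 (1 : G) := by
    have hc : Continuous fun h : G => ‖r h - 1‖ := (hr.sub continuous_const).norm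
    apply (isOpen_lt hc continuous_const).mem_nhds
    simp
  obtain ⟨δ, hδ, hball⟩ : ∃ δ > 0, ∀ h : G, rho h ∈ Metric.ball (1 : Mat N) δ →
      ‖r h - 1‖ < 1 / 2 := by
    rw [hemb.isInducing.nhds_eq_comap, map_one, Filter.mem_comap] at hU
    obtain ⟨V, hV, hVU⟩ := hU
    obtain ⟨δ, hδ, hsub⟩ := Metric.mem_nhds_iff.mp hV
    exact ⟨δ, hδ, fun h hh => hVU (hsub hh)⟩
  let φ : ContDiffBump (1 : Mat N) := ⟨δ / 2, δ, by positivity, by linarith⟩
  have hinv : ∀ g, (rho g)ᴴ = rho g⁻¹ := by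
    intro g
    have h1 : rho g⁻¹ * rho g = 1 := by rw [← map_mul, inv_mul_cancel, map_one]
    calc (rho g)ᴴ = (rho g⁻¹ * rho g) * (rho g)ᴴ := by rw [h1, one_mul]
      _ = rho g⁻¹ * (rho g * (rho g)ᴴ) := by rw [mul_assoc]
      _ = rho g⁻¹ := by rw [hunit, mul_one]
  have hφc : Continuous fun h : G => φ (rho h) := φ.continuous.comp hrho
  obtain ⟨S, hS⟩ := core μ r hr (fun h => φ (rho h)) hφc (fun h => φ.nonneg)
    (by
      show φ (rho 1) ≠ 0
      rw [map_one, φ.one_of_mem_closedBall (Metric.mem_closedBall_self (by positivity))]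
      exact one_ne_zero)
    (fun h hh => by
      apply hball
      have h4 : rho h ∈ Function.support φ := hh
      rw [φ.support_eq] at h4
      exact h4)
  -- the smooth function
  let ψ : (Mat N × Mat M) × Mat N → Mat M := fun q => φ (q.2ᴴ * q.1.1) • q.1.2
  have hψ : ContDiff ℝ ∞ ψ := by
    have h1 : ContDiff ℝ ∞ fun q : (Mat N × Mat M) × Mat N => q.2ᴴ :=
      (ct N).contDiff.comp contDiff_snd
    have h2 : ContDiff ℝ ∞ fun q : (Mat N × Mat M) × Mat N => q.2ᴴ * q.1.1 :=
      h1.mul (contDiff_fst.comp contDiff_fst)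
    have h3 : ContDiff ℝ ∞ fun q : (Mat N × Mat M) × Mat N => φ (q.2ᴴ * q.1.1) :=
      φ.contDiff.comp h2
    exact h3.smul (contDiff_snd.comp contDiff_fst)
  have hF := hpar G (Mat N × Mat M) (Mat N) (Mat M) μ (fun h => (rho h, r h)) ψ
    (hrho.prodMk hr) hψ
  refine ⟨fun A => (∫ h, ψ ((rho h, r h), A) ∂μ) * S, hF.mul contDiff_const, fun g => ?_⟩
  have key : ∫ h, ψ ((rho h, r h), rho g) ∂μ = ∫ h, φ (rho (g⁻¹ * h)) • r h ∂μ := by
    refine integral_congr_ae (Filter.Eventually.of_forall fun h => ?_)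
    show φ ((rho g)ᴴ * rho h) • r h = φ (rho (g⁻¹ * h)) • r h
    rw [hinv, ← map_mul]
  show r g = (∫ h, ψ ((rho h, r h), rho g) ∂μ) * S
  rw [key]
  exact hS g

end

end Pool.Agent.W557.SC.Gard
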